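import Pool.Agent.L0h5.TW.Exp
import Pool.Agent.L0h5.TW.Avg
import Pool.Agent.L0h5.TW.Main
import Pool.Agent.L0h5.TW.Rat3
import Pool.Agent.L0h5.TT.Avg
import Pool.Agent.L0h5.TU.A4
import Pool.Agent.L0h71.TU.Core
import Pool.Agent.L0h71.TU.Rnk
import Pool.Agent.L0h93.TU.Gro
import Pool.Agent.L0h93.TU.Trv
import Pool.Agent.L0h19.TU.Typ
import Pool.Agent.LLead.TU.Asm
import Pool.Agent.LLead.TT.Coef
import Pool.Agent.L0h88.TW.Cmb

/-!
# All moments of the rank for the elliptic curves over `ℚ(T)` with full 2-torsion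

Every elliptic curve over `ℚ(T)` with full rational 2-torsion has, after a change of coordinates,
the form `y² = x (x - D G₀) (x - D G₁)` with `D`, `G₀`, `G₁` in `ℚ[T]`, `D` squarefree and `G₀`,
`G₁` coprime. Put `G₂ = G₀ - G₁`. After a change of the parameter, `T ↦ (a T + b) / (c T + d)`, the
place at infinity is a place of good reduction, that is, `D G₀`, `D G₁`, `D G₂` have the same even
degree. The irreducible factors of `D` are places of additive reduction; an irreducible factor `f`
of `G_k` that does not divide `D` is a place of multiplicative reduction, of class `k`, which is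
split if and only if `κ_k` is a square modulo `f`, where `κ₀ = -D G₁`, `κ₁ = -D G₀`, `κ₂ = D G₀`.
A multiplicative place is called weak if it is nonsplit and its multiplicity in `G_k` is even, and
strong otherwise.

Suppose that for each class `k` that occurs the number of the multiplicative places of class `k` is
less than the number of the strong places of the two other classes, or that the two numbers are
equal and there is a weak place. Then there is a set `A` of rational numbers of density one (in the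
ordering by height) such that for every `k` the average of `k ^ rank` over the curves `E_t`,
`t ∈ A` of height at most `X`, is bounded.

There is no condition on the places of additive reduction.
-/

set_option autoImplicit false

namespace Pool.Agent.Results.MP_157626_nt.AllMomentsPencils

open Finset Polynomial UniqueFactorizationMonoid Filter

/-- the curve `y² = x (x - A) (x - B)` over `ℚ` -/
def E (A B : ℚ) : WeierstrassCurve ℚ := ⟨0, -(A + B), 0, A * B, 0⟩

open Classical in
/-- the distinct monic irreducible factors of `H` that do not divide `D` -/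
noncomputable def places (D H : ℚ[X]) : Finset ℚ[X] :=
  (normalizedFactors H).toFinset.filter (fun f => ¬ f ∣ D)

/-- `κ` is a square modulo `f` -/
def SquareMod (f κ : ℚ[X]) : Prop := ∃ R : ℚ[X], f ∣ κ - R ^ 2

open Classical in
/-- the strong places: `κ` is a square modulo `f`, or the multiplicity of `f` in `H` is odd -/
noncomputable def strong (D H κ : ℚ[X]) : Finset ℚ[X] :=
  (places D H).filter (fun f => SquareMod f κ ∨ Odd ((normalizedFactors H).count f))

/-- there is a weak place -/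
def Weak (D H κ : ℚ[X]) : Prop := ∃ f ∈ places D H, f ∉ strong D H κ

/-- the condition for one class: `N` is the number of the places of this class, `S` and `S'` are the
numbers of the strong places of the two other classes -/
def Criterion (N S S' : ℕ) (W : Prop) : Prop := N = 0 ∨ N < S + S' ∨ (N = S + S' ∧ W)

/-- the rational numbers `m / n` with `|m| ≤ X`, `1 ≤ n ≤ X`, that is, the rational numbers of height
at most `X` -/
noncomputable def rationals (X : ℕ) : Finset ℚ :=
  ((Icc (-(X : ℤ)) X) ×ˢ (Icc (1 : ℤ) X)).image (fun p => (p.1 : ℚ) / (p.2 : ℚ))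

open Classical in
/-- the elements of `A` of height at most `X` -/
noncomputable def inA (A : Set ℚ) (X : ℕ) : Finset ℚ := (rationals X).filter (· ∈ A)

open Pool.Agent.L0h5.TH Pool.Agent.L0h5.TW in
lemma crit {D G₀ G₁ G₂ : ℚ[X]} {W : Prop}
    (hW : W → Weak D G₀ (-(D * G₁)) ∨ Weak D G₁ (-(D * G₀)) ∨ Weak D G₂ (D * G₀))
    (c0 : Criterion (places D G₀).card (strong D G₁ (-(D * G₀))).card
      (strong D G₂ (D * G₀)).card W)
    (c1 : Criterion (places D G₁).card (strong D G₀ (-(D * G₁))).card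
      (strong D G₂ (D * G₀)).card W)
    (c2 : Criterion (places D G₂).card (strong D G₀ (-(D * G₁))).card
      (strong D G₁ (-(D * G₀))).card W) :
    CritG D ![G₀, G₁, G₂] := by
  classical
  have hm : ∀ H, mfT ∅ D H = places D H := by
    intro H
    unfold mfT places
    ext f
    simp only [mem_filter, notMem_empty, not_false_eq_true, and_true]
  have hs : ∀ k, str D ![G₀, G₁, G₂] k =
      strong D (![G₀, G₁, G₂] k) (kp D ![G₀, G₁, G₂] k) := by
    intro k
    unfold str strong
    rw [hm]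
    rfl
  have hw : ∀ k, Weak D (![G₀, G₁, G₂] k) (kp D ![G₀, G₁, G₂] k) →
      ∃ l, ∃ f ∈ mfT ∅ D (![G₀, G₁, G₂] l), ¬ SplitQ f (kp D ![G₀, G₁, G₂] l) ∧
        Even ((normalizedFactors (![G₀, G₁, G₂] l)).count f) := by
    rintro k ⟨f, hf, hf'⟩
    refine ⟨k, f, by rw [hm]; exact hf, ?_⟩
    unfold strong at hf'
    rw [mem_filter, not_and, not_or, Nat.not_odd_iff_even] at hf'
    exact hf' hf
  have hw' : W → ∃ l, ∃ f ∈ mfT ∅ D (![G₀, G₁, G₂] l), ¬ SplitQ f (kp D ![G₀, G₁, G₂] l) ∧
        Even ((normalizedFactors (![G₀, G₁, G₂] l)).count f) := by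
    intro h
    rcases hW h with h | h | h
    · exact hw 0 h
    · exact hw 1 h
    · exact hw 2 h
  have h3 : ∀ k : Fin 3, k = 0 ∨ k = 1 ∨ k = 2 := by decide
  have e0 : (univ : Finset (Fin 3)).erase 0 = {1, 2} := by decide
  have e1 : (univ : Finset (Fin 3)).erase 1 = {0, 2} := by decide
  have e2 : (univ : Finset (Fin 3)).erase 2 = {0, 1} := by decide
  intro k
  rw [hm]
  rcases h3 k with rfl | rfl | rfl
  · rw [e0, sum_pair (by decide), hs, hs]
    rcases c0 with h | h | ⟨h, h'⟩
    · exact Or.inl h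
    · exact Or.inr (Or.inl h)
    · exact Or.inr (Or.inr ⟨h, hw' h'⟩)
  · rw [e1, sum_pair (by decide), hs, hs]
    rcases c1 with h | h | ⟨h, h'⟩
    · exact Or.inl h
    · exact Or.inr (Or.inl h)
    · exact Or.inr (Or.inr ⟨h, hw' h'⟩)
  · rw [e2, sum_pair (by decide), hs, hs]
    rcases c2 with h | h | ⟨h, h'⟩
    · exact Or.inl h
    · exact Or.inr (Or.inl h)
    · exact Or.inr (Or.inr ⟨h, hw' h'⟩)

lemma rationals_mono {X Y : ℕ} (h : X ≤ Y) : rationals X ⊆ rationals Y :=
  Pool.Agent.L0h5.TW.rats_mono h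

lemma avg {A : Set ℚ}
    (hA : Tendsto (fun X : ℕ => ((inA A X).card : ℝ) / (rationals X).card) atTop (nhds 1))
    {f : ℚ → ℝ} {C : ℝ} (hC : ∀ X : ℕ, ∑ t ∈ inA A X, f t ≤ C * (rationals X).card) :
    ∃ C' : ℝ, ∀ X : ℕ, ∑ t ∈ inA A X, f t ≤ C' * (inA A X).card := by
  classical
  have h1 : ∀ᶠ X : ℕ in atTop, (1 / 2 : ℝ) < ((inA A X).card : ℝ) / (rationals X).card :=
    hA.eventually (lt_mem_nhds (by norm_num))
  obtain ⟨H0, hH0⟩ := eventually_atTop.1
    (h1.and (Pool.Agent.L0h5.TW.rats_tend.eventually_gt_atTop 0))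
  have hC0 : 0 ≤ |C| := abs_nonneg C
  refine ⟨2 * |C| + |C| * (rationals H0).card, fun H => ?_⟩
  have hn : (0 : ℝ) ≤ (inA A H).card := Nat.cast_nonneg _
  have hm : (0 : ℝ) ≤ (rationals H0).card := Nat.cast_nonneg _
  rcases Nat.lt_or_ge H H0 with h | h
  · rcases Nat.eq_zero_or_pos (inA A H).card with h0 | h0
    · rw [h0, card_eq_zero.1 h0, sum_empty]
      simp
    · have h2 : (1 : ℝ) ≤ (inA A H).card := by exact_mod_cast h0
      have h3 : ((rationals H).card : ℝ) ≤ (rationals H0).card := by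
        exact_mod_cast card_le_card (rationals_mono h.le)
      calc ∑ c ∈ inA A H, f c ≤ C * (rationals H).card := hC H
        _ ≤ |C| * (rationals H0).card :=
            mul_le_mul (le_abs_self C) h3 (Nat.cast_nonneg _) hC0
        _ ≤ (2 * |C| + |C| * (rationals H0).card) * 1 := by nlinarith
        _ ≤ _ := mul_le_mul_of_nonneg_left h2 (by positivity)
  · obtain ⟨h3, h5⟩ := hH0 H h
    have h5' : (0 : ℝ) < (rationals H).card := h5
    rw [lt_div_iff₀ h5'] at h3
    calc ∑ c ∈ inA A H, f c ≤ C * (rationals H).card := hC H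
      _ ≤ |C| * (rationals H).card := mul_le_mul_of_nonneg_right (le_abs_self C) h5'.le
      _ ≤ |C| * (2 * (inA A H).card) := mul_le_mul_of_nonneg_left (by linarith) hC0
      _ ≤ _ := by
          have h6 : 0 ≤ |C| * (rationals H0).card * (inA A H).card := by positivity
          linarith

/-- the conclusion for one curve over `ℚ(T)` -/
theorem of_main (hMAIN : Pool.Agent.L0h5.TW.S4_MAIN) (D G₀ G₁ G₂ : ℚ[X]) (hrel : G₀ - G₁ = G₂)
    (hD : Squarefree D) (h0 : G₀ ≠ 0) (h1 : G₁ ≠ 0) (h2 : G₂ ≠ 0) (h01 : IsCoprime G₀ G₁) (n : ℕ)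
    (d0 : (D * G₀).natDegree = 2 * n) (d1 : (D * G₁).natDegree = 2 * n)
    (d2 : (D * G₂).natDegree = 2 * n) (W : Prop)
    (hW : W → Weak D G₀ (-(D * G₁)) ∨ Weak D G₁ (-(D * G₀)) ∨ Weak D G₂ (D * G₀))
    (c0 : Criterion (places D G₀).card (strong D G₁ (-(D * G₀))).card
      (strong D G₂ (D * G₀)).card W)
    (c1 : Criterion (places D G₁).card (strong D G₀ (-(D * G₁))).card
      (strong D G₂ (D * G₀)).card W)
    (c2 : Criterion (places D G₂).card (strong D G₀ (-(D * G₁))).card
      (strong D G₁ (-(D * G₀))).card W) :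
    ∃ A : Set ℚ, (∀ t ∈ A, (D * G₀ * G₁ * G₂).eval t ≠ 0) ∧
      Tendsto (fun X : ℕ => ((inA A X).card : ℝ) / (rationals X).card) atTop (nhds 1) ∧
      ∀ k : ℕ, ∃ C : ℝ, ∀ X : ℕ, ∑ t ∈ inA A X, (k : ℝ) ^ Module.finrank ℤ
        (E ((D * G₀).eval t) ((D * G₁).eval t)).toAffine.Point ≤ C * (inA A X).card := by
  classical
  have h3 : ∀ k : Fin 3, k = 0 ∨ k = 1 ∨ k = 2 := by decide
  obtain ⟨A, hA0, hA, hk⟩ := Pool.Agent.L0h5.TW.ratW (D := D) (G := ![G₀, G₁, G₂]) hMAIN
    Pool.Agent.L0h19.TU.s_typ Pool.Agent.LLead.TU.asm hrel hD (fun k => by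
      rcases h3 k with rfl | rfl | rfl
      · exact h0
      · exact h1
      · exact h2) h01 (n := n) (fun k => by
      rcases h3 k with rfl | rfl | rfl
      · exact d0
      · exact d1
      · exact d2) (crit hW c0 c1 c2)
  have hA1 : Tendsto (fun X : ℕ => ((inA A X).card : ℝ) / (rationals X).card) atTop (nhds 1) := by
    have h1 := hA.const_sub 1
    rw [sub_zero] at h1
    refine h1.congr' ?_
    filter_upwards [Pool.Agent.L0h5.TW.rats_tend.eventually_gt_atTop 0] with X hX
    have h2 := card_filter_add_card_filter_not (s := rationals X) (fun t => t ∈ A)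
    have h3 : ((rationals X).card : ℝ) ≠ 0 := hX.ne'
    show 1 - (((rationals X).filter (fun t => t ∉ A)).card : ℝ) / (rationals X).card =
      ((inA A X).card : ℝ) / (rationals X).card
    rw [eq_div_iff h3, sub_mul, one_mul, div_mul_cancel₀ _ h3]
    have h4 : ((inA A X).card : ℝ) + (((rationals X).filter (fun t => t ∉ A)).card : ℝ) =
        (rationals X).card := by
      rw [← h2]
      push_cast
      rfl
    linarith
  refine ⟨A, hA0, hA1, fun k => ?_⟩
  obtain ⟨C, hC⟩ := hk k
  exact avg hA1 (C := C) fun X => hC X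

/-- **All moments of the rank in a family `E_t` with full 2-torsion.** Here `D`, `G₀`, `G₁` are
polynomials over `ℚ`, `D` is squarefree, `G₀` and `G₁` are coprime, and the place at infinity is a
place of good reduction. If the three criteria hold, then on a set `A` of rational numbers of
density one all the moments of the rank of `E_t : y² = x (x - (D G₀)(t)) (x - (D G₁)(t))` are
bounded. -/
theorem result (D G₀ G₁ G₂ : ℚ[X]) (hrel : G₀ - G₁ = G₂) (hD : Squarefree D)
    (h0 : G₀ ≠ 0) (h1 : G₁ ≠ 0) (h2 : G₂ ≠ 0) (h01 : IsCoprime G₀ G₁) (n : ℕ)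
    (d0 : (D * G₀).natDegree = 2 * n) (d1 : (D * G₁).natDegree = 2 * n)
    (d2 : (D * G₂).natDegree = 2 * n)
    (c0 : Criterion (places D G₀).card (strong D G₁ (-(D * G₀))).card
      (strong D G₂ (D * G₀)).card
      (Weak D G₀ (-(D * G₁)) ∨ Weak D G₁ (-(D * G₀)) ∨ Weak D G₂ (D * G₀)))
    (c1 : Criterion (places D G₁).card (strong D G₀ (-(D * G₁))).card
      (strong D G₂ (D * G₀)).card
      (Weak D G₀ (-(D * G₁)) ∨ Weak D G₁ (-(D * G₀)) ∨ Weak D G₂ (D * G₀)))
    (c2 : Criterion (places D G₂).card (strong D G₀ (-(D * G₁))).card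
      (strong D G₁ (-(D * G₀))).card
      (Weak D G₀ (-(D * G₁)) ∨ Weak D G₁ (-(D * G₀)) ∨ Weak D G₂ (D * G₀))) :
    ∃ A : Set ℚ, (∀ t ∈ A, (D * G₀ * G₁ * G₂).eval t ≠ 0) ∧
      Tendsto (fun X : ℕ => ((inA A X).card : ℝ) / (rationals X).card) atTop (nhds 1) ∧
      ∀ k : ℕ, ∃ C : ℝ, ∀ X : ℕ, ∑ t ∈ inA A X, (k : ℝ) ^ Module.finrank ℤ
        (E ((D * G₀).eval t) ((D * G₁).eval t)).toAffine.Point ≤ C * (inA A X).card := by
  have hAG := Pool.Agent.L0h5.TU.agF Pool.Agent.LLead.TT.coef
  have hTRV := Pool.Agent.L0h93.TU.trv Pool.Agent.L0h93.TU.gro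
  have hRNK := Pool.Agent.L0h71.TU.s2_rnk Pool.Agent.L0h93.TU.gro hTRV
  have hMAIN := Pool.Agent.L0h5.TW.s4_main Pool.Agent.L0h93.TU.gro hTRV
    (Pool.Agent.L0h5.TW.s4_avg hAG Pool.Agent.L0h5.TW.s4_exp Pool.Agent.L0h88.TW.s4_cmb) hRNK
    Pool.Agent.L0h71.TU.s2_core
  exact of_main hMAIN D G₀ G₁ G₂ hrel hD h0 h1 h2 h01 n d0 d1 d2 _ id c0 c1 c2

end Pool.Agent.Results.MP_157626_nt.AllMomentsPencils
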