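import Pool.Agent.L0h5.TT.G4
import Pool.Agent.L0h5.TT.Avg
import Pool.Agent.L0h5.TT.Core
import Pool.Agent.L0h19.TT.Ant
import Pool.Agent.L0h41.TT.Rnk
import Pool.Agent.L0h71.TT.Cmb
import Pool.Agent.L0h71.TT.Typ
import Pool.Agent.L0h71.TT.Exp
import Pool.Agent.L0h71.TT.Lam
import Pool.Agent.L0h88.TT.TC
import Pool.Agent.L0h88.TT.BOX
import Pool.Agent.L0h88.TT.FAM
import Pool.Agent.L0h90.TT.Cnt
import Pool.Agent.L0h93.TT.Gro
import Pool.Agent.L0h93.TT.Trv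
import Pool.Agent.LLead.TT.Coef
import Pool.Agent.LLead.TT.Fin
import Pool.Agent.L0h94.FT.Low
import Pool.Agent.W307.RT.Tors
import Pool.Agent.W29.RT.LOW4
import Pool.Agent.W376.RTL.Low6
import Pool.Agent.L0h80.T8.Low28
import Pool.Agent.L0h80.T8.Low4c
import Pool.Agent.L0h98.T8.Low8
import Pool.Agent.L0h98.T12.Low12
import Pool.Agent.L0h5.TE.Tend
import Pool.Agent.L0h5.TU.MainU2
import Pool.Agent.L0h5.TU.AvgU
import Pool.Agent.L0h57.TU.Lam
import Pool.Agent.L0h57.TU.F26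
import Pool.Agent.L0h71.TU.Exp
import Pool.Agent.L0h71.TU.Rnk
import Pool.Agent.L0h71.TU.Core
import Pool.Agent.L0h90.TU.Cmb
import Pool.Agent.L0h90.TU.AvgW
import Pool.Agent.L0h90.TU.F4
import Pool.Agent.L0h93.TU.Gro
import Pool.Agent.L0h93.TU.Trv
import Pool.Agent.L0h19.TU.Typ
import Pool.Agent.L0h88.TU.BOX
import Pool.Agent.L0h88.TU.F28
import Pool.Agent.L0h88.TU.F8
import Pool.Agent.L0h88.TU.F12
import Pool.Agent.LLead.TU.Asm
import Pool.Agent.L0h5.TV.B3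
import Pool.Agent.L0h57.TV.Lam
import Pool.Agent.L0h71.TV.Cmb
import Pool.Agent.L0h71.TV.Avg
import Pool.Agent.L0h48.TV.Sw
import Pool.Agent.L0h55.TV.Main
import Pool.Agent.L0h55.TV.Box
import Pool.Agent.L0h55.TV.F24

/-!
# All moments of the rank for the torsion groups of order divisible by 4

By Mazur's theorem the torsion subgroups of order divisible by 4 of elliptic curves over `ℚ` are
`Z/4`, `Z/8`, `Z/12`, `Z/2 x Z/2`, `Z/2 x Z/4`, `Z/2 x Z/6` and `Z/2 x Z/8`. For each of these groups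
`G` consider all the elliptic curves over `ℚ` whose group of rational points contains `G`, ordered by
height. There is a set `A` of these curves, of density one, such that for every `k` the average of
`k ^ rank` over the curves of `A` of height at most `H` is bounded by a constant that depends only
on `G` and `k`.
-/

set_option autoImplicit false

namespace Pool.Agent.Results.MP_157626_nt.AllMomentsTorsion

open Finset Filter

/-- the curve `y² = x³ + A x + B` over `ℚ` -/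
def E (A B : ℤ) : WeierstrassCurve ℚ := ⟨0, 0, 0, (A : ℚ), (B : ℚ)⟩

/-- the pairs `(m, n)` such that `Z/m x Z/n` has order divisible by 4 and occurs in Mazur's list -/
def Groups : Finset (ℕ × ℕ) := {(1, 4), (1, 8), (1, 12), (2, 2), (2, 4), (2, 6), (2, 8)}

open Classical in
/-- The pairs `(A, B)` of integers such that `4 A³ + 27 B² ≠ 0`, there is no prime `p` with
`p⁴ ∣ A` and `p⁶ ∣ B`, the height `max (4 |A|³) (27 B²)` is at most `H`, and `Z/m x Z/n` embeds in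
the group of the rational points of `y² = x³ + A x + B`. (The bounds `|A|, |B| ≤ H` follow from the
bound of the height. Every elliptic curve over `ℚ` is isomorphic to `E A B` for exactly one pair with
the first two properties.) -/
noncomputable def Fam (m n H : ℕ) : Finset (ℤ × ℤ) :=
  ((Icc (-(H : ℤ)) H) ×ˢ (Icc (-(H : ℤ)) H)).filter (fun c : ℤ × ℤ =>
    4 * c.1 ^ 3 + 27 * c.2 ^ 2 ≠ 0 ∧ 4 * |c.1| ^ 3 ≤ H ∧ 27 * c.2 ^ 2 ≤ H ∧
    (∀ p : ℕ, p.Prime → ¬ ((p : ℤ) ^ 4 ∣ c.1 ∧ (p : ℤ) ^ 6 ∣ c.2)) ∧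
    ∃ f : ZMod m × ZMod n →+ (E c.1 c.2).toAffine.Point, Function.Injective f)

open Classical in
/-- the curves of height at most `H` with a subgroup `Z/m x Z/n` that belong to `A` -/
noncomputable def FamIn (m n : ℕ) (A : Set (ℤ × ℤ)) (H : ℕ) : Finset (ℤ × ℤ) :=
  (Fam m n H).filter (· ∈ A)

lemma Fam_eq (m H : ℕ) : Fam 2 m H = Pool.Agent.W307.RT.Cv m H := by
  classical
  unfold Fam Pool.Agent.W307.RT.Cv
  apply filter_congr
  intro c _
  have h : Pool.Agent.W307.RT.HasT m (Pool.Agent.W307.RT.Sh c.1 c.2) ↔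
      ∃ f : ZMod 2 × ZMod m →+ (E c.1 c.2).toAffine.Point, Function.Injective f :=
    Pool.Agent.W307.RT.tors_iff
  rw [h]

/-- points of order `m` -/
lemma cyc_iff {G : Type*} [AddCommGroup G] {m : ℕ} :
    (∃ P : G, addOrderOf P = m) ↔ ∃ f : ZMod 1 × ZMod m →+ G, Function.Injective f := by
  constructor
  · rintro ⟨P, hP⟩
    have h4 : (zmultiplesHom G P) ((m : ℕ) : ℤ) = 0 := by
      rw [zmultiplesHom_apply, natCast_zsmul, ← hP]
      exact addOrderOf_nsmul_eq_zero P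
    refine ⟨(ZMod.lift m ⟨zmultiplesHom G P, h4⟩).comp (AddMonoidHom.snd _ _), ?_⟩
    rw [injective_iff_map_eq_zero]
    rintro ⟨a, b⟩ hab
    obtain ⟨b, rfl⟩ := ZMod.intCast_surjective b
    rw [AddMonoidHom.comp_apply] at hab
    change ZMod.lift m ⟨zmultiplesHom G P, h4⟩ (b : ZMod m) = 0 at hab
    rw [ZMod.lift_coe, zmultiplesHom_apply, ← addOrderOf_dvd_iff_zsmul_eq_zero, hP] at hab
    refine Prod.ext ?_ ?_
    · exact Subsingleton.elim (α := Fin 1) _ _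
    · exact (ZMod.intCast_zmod_eq_zero_iff_dvd b m).2 hab
  · rintro ⟨f, hf⟩
    refine ⟨f (0, 1), ?_⟩
    rw [addOrderOf_injective f hf, Prod.addOrderOf_mk, addOrderOf_zero, ZMod.addOrderOf_one,
      Nat.lcm_one_left]

lemma Fam_one (m H : ℕ) : Fam 1 m H = Pool.Agent.L0h5.T8.Cc m H := by
  classical
  unfold Fam Pool.Agent.L0h5.T8.Cc
  apply filter_congr
  intro c _
  have h : Pool.Agent.L0h5.T8.HasP m (Pool.Agent.W307.RT.Sh c.1 c.2) ↔
      ∃ f : ZMod 1 × ZMod m →+ (E c.1 c.2).toAffine.Point, Function.Injective f := cyc_iff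
  rw [h]

lemma Fam_mono {m n H H' : ℕ} (h : H ≤ H') : Fam m n H ⊆ Fam m n H' := by
  classical
  intro c hc
  unfold Fam at hc ⊢
  rw [mem_filter, mem_product, mem_Icc, mem_Icc] at hc ⊢
  have h' : (H : ℤ) ≤ H' := by exact_mod_cast h
  obtain ⟨⟨⟨a1, a2⟩, a3, a4⟩, b1, b2, b3, b4⟩ := hc
  exact ⟨⟨⟨by linarith, by linarith⟩, by linarith, by linarith⟩, b1, by linarith, by linarith, b4⟩

lemma avg {m n : ℕ} {A : Set (ℤ × ℤ)}
    (hT : Tendsto (fun H : ℕ => (Fam m n H).card) atTop atTop)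
    (hA : Tendsto (fun H : ℕ => ((FamIn m n A H).card : ℝ) / (Fam m n H).card) atTop (nhds 1))
    {f : ℤ × ℤ → ℝ} {C : ℝ} (hC : ∀ H : ℕ, ∑ c ∈ FamIn m n A H, f c ≤ C * (Fam m n H).card) :
    ∃ C' : ℝ, ∀ H : ℕ, ∑ c ∈ FamIn m n A H, f c ≤ C' * (FamIn m n A H).card := by
  classical
  have h1 : ∀ᶠ H : ℕ in atTop, (1 / 2 : ℝ) < ((FamIn m n A H).card : ℝ) / (Fam m n H).card :=
    hA.eventually (lt_mem_nhds (by norm_num))
  obtain ⟨H0, hH0⟩ := eventually_atTop.1 (h1.and (hT.eventually_ge_atTop 1))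
  have hC0 : 0 ≤ |C| := abs_nonneg C
  refine ⟨2 * |C| + |C| * (Fam m n H0).card, fun H => ?_⟩
  have hn : (0 : ℝ) ≤ (FamIn m n A H).card := Nat.cast_nonneg _
  have hm : (0 : ℝ) ≤ (Fam m n H0).card := Nat.cast_nonneg _
  rcases Nat.lt_or_ge H H0 with h | h
  · rcases Nat.eq_zero_or_pos (FamIn m n A H).card with h0 | h0
    · rw [h0, card_eq_zero.1 h0, sum_empty]
      simp
    · have h2 : (1 : ℝ) ≤ (FamIn m n A H).card := by exact_mod_cast h0
      have h3 : ((Fam m n H).card : ℝ) ≤ (Fam m n H0).card := by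
        exact_mod_cast card_le_card (Fam_mono h.le)
      calc ∑ c ∈ FamIn m n A H, f c ≤ C * (Fam m n H).card := hC H
        _ ≤ |C| * (Fam m n H0).card :=
            mul_le_mul (le_abs_self C) h3 (Nat.cast_nonneg _) hC0
        _ ≤ (2 * |C| + |C| * (Fam m n H0).card) * 1 := by nlinarith
        _ ≤ _ := mul_le_mul_of_nonneg_left h2 (by positivity)
  · obtain ⟨h3, h4⟩ := hH0 H h
    have h5 : (0 : ℝ) < (Fam m n H).card := by exact_mod_cast h4
    rw [lt_div_iff₀ h5] at h3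
    calc ∑ c ∈ FamIn m n A H, f c ≤ C * (Fam m n H).card := hC H
      _ ≤ |C| * (Fam m n H).card := mul_le_mul_of_nonneg_right (le_abs_self C) h5.le
      _ ≤ |C| * (2 * (FamIn m n A H).card) := mul_le_mul_of_nonneg_left (by linarith) hC0
      _ ≤ _ := by
          have h6 : 0 ≤ |C| * (Fam m n H0).card * (FamIn m n A H).card := by positivity
          linarith

/-- the conclusion for one family -/
lemma concl {m n : ℕ} (hT : Tendsto (fun H : ℕ => (Fam m n H).card) atTop atTop)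
    (hM : Pool.Agent.L0h5.TU.MOM (Fam m n) Pool.Agent.L0h5.TU.rkS) :
    Tendsto (fun H : ℕ => (Fam m n H).card) atTop atTop ∧ ∃ A : Set (ℤ × ℤ),
      Tendsto (fun H : ℕ => ((FamIn m n A H).card : ℝ) / (Fam m n H).card) atTop (nhds 1) ∧
      ∀ k : ℕ, ∃ C : ℝ, ∀ H : ℕ, ∑ c ∈ FamIn m n A H,
        (k : ℝ) ^ Module.finrank ℤ (E c.1 c.2).toAffine.Point ≤ C * (FamIn m n A H).card := by
  classical
  obtain ⟨A, hA, hk⟩ := hM
  have hA1 : Tendsto (fun H : ℕ => ((FamIn m n A H).card : ℝ) / (Fam m n H).card) atTop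
      (nhds 1) := by
    have h1 := hA.const_sub 1
    rw [sub_zero] at h1
    refine h1.congr' ?_
    filter_upwards [hT.eventually_ge_atTop 1] with H hH
    have h2 := card_filter_add_card_filter_not (s := Fam m n H) (fun c => c ∈ A)
    have h3 : ((Fam m n H).card : ℝ) ≠ 0 := by
      have : (Fam m n H).card ≠ 0 := by omega
      exact_mod_cast this
    rw [eq_div_iff h3, sub_mul, one_mul, div_mul_cancel₀ _ h3]
    have h4 : ((FamIn m n A H).card : ℝ) + (((Fam m n H).filter (fun c => c ∉ A)).card : ℝ) =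
        (Fam m n H).card := by
      rw [← h2]
      push_cast
      rfl
    linarith
  refine ⟨hT, A, hA1, fun k => ?_⟩
  obtain ⟨C, hC⟩ := hk k
  exact avg hT hA1 (C := C) fun H => hC H

/-! ### The parts -/

lemma h22 : Pool.Agent.L0h5.TU.MOM (Pool.Agent.W307.RT.Cv 2) Pool.Agent.L0h5.TU.rkS := by
  have hCOEF := Pool.Agent.LLead.TT.coef
  have hLAM := Pool.Agent.L0h71.TT.s_lam
  have hAGF := Pool.Agent.L0h5.TT.agF hCOEF
  have hEXP := Pool.Agent.L0h71.TT.s_exp hLAM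
  have hAVG := Pool.Agent.L0h5.TT.avgF hAGF Pool.Agent.L0h71.TT.s_cmb hEXP
  have hGRO := Pool.Agent.L0h93.TT.gro
  have hTRV := Pool.Agent.L0h93.TT.trv hGRO
  have hRNK := Pool.Agent.L0h41.TT.rnk hGRO hTRV hAVG
  have hTC := Pool.Agent.L0h88.TT.tcF
  have hCORE := Pool.Agent.L0h5.TT.coreF hRNK hTRV Pool.Agent.L0h19.TT.ant hTC
    Pool.Agent.L0h90.TT.cnt
  have hBOX := Pool.Agent.L0h88.TT.boxF hCORE Pool.Agent.L0h71.TT.s_typ
  exact Pool.Agent.LLead.TT.fin (Pool.Agent.L0h88.TT.famF hBOX)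

lemma hAG : Pool.Agent.L0h5.TU.S2_AG := Pool.Agent.L0h5.TU.agF Pool.Agent.LLead.TT.coef

lemma hAVG : Pool.Agent.L0h5.TU.S2_AVG :=
  Pool.Agent.L0h5.TU.avgU hAG Pool.Agent.L0h71.TU.s2_exp Pool.Agent.L0h57.TU.s2_lam
    Pool.Agent.L0h90.TU.s2_cmb

lemma hTRV : Pool.Agent.L0h5.TU.S2_TRV := Pool.Agent.L0h93.TU.trv Pool.Agent.L0h93.TU.gro

lemma hRNK : Pool.Agent.L0h5.TU.S2_RNK := Pool.Agent.L0h71.TU.s2_rnk Pool.Agent.L0h93.TU.gro hTRV

lemma hBOX : Pool.Agent.L0h5.TU.S2_BOX :=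
  Pool.Agent.L0h88.TU.boxU (Pool.Agent.L0h5.TU.mainU Pool.Agent.L0h93.TU.gro hTRV hAVG hRNK
    Pool.Agent.L0h71.TU.s2_core) Pool.Agent.L0h19.TU.s_typ

lemma h4 : Pool.Agent.L0h5.TU.S2_F4 :=
  Pool.Agent.L0h90.TU.s2_f4 (Pool.Agent.L0h90.TU.avgW hAG Pool.Agent.L0h71.TU.s2_exp
    Pool.Agent.L0h57.TU.s2_lam Pool.Agent.L0h90.TU.s2_cmb) hRNK Pool.Agent.L0h71.TU.s2_core hTRV
    Pool.Agent.LLead.TU.asm

lemma hAVG3 : Pool.Agent.L0h5.TV.S3_AVG :=
  Pool.Agent.L0h71.TV.s3_avg Pool.Agent.L0h48.TV.sw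
    (Pool.Agent.L0h5.TV.agT Pool.Agent.LLead.TT.coef) Pool.Agent.L0h71.TU.s2_exp
    Pool.Agent.L0h57.TV.s3_lam Pool.Agent.L0h71.TV.s3_cmb

lemma h24 : Pool.Agent.L0h5.TV.S3_F24 :=
  Pool.Agent.L0h55.TV.s3_f24 hAVG3 (Pool.Agent.L0h55.TV.boxV
    (Pool.Agent.L0h55.TV.mainV Pool.Agent.L0h93.TU.gro hTRV hRNK Pool.Agent.L0h71.TU.s2_core)
    Pool.Agent.L0h19.TU.s_typ) Pool.Agent.LLead.TU.asm

/-- **Theorem.** For each of the seven groups `Z/m x Z/n` of order divisible by 4 in Mazur's list: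
the number of the elliptic curves over `ℚ` of height at most `H` with a subgroup `Z/m x Z/n` of
rational points tends to infinity with `H`, and there is a set `A` of density one among these curves
such that for every `k` the average of `k ^ rank` over the curves of `A` of height at most `H` is
bounded. -/
theorem result : ∀ G ∈ Groups,
    Tendsto (fun H : ℕ => (Fam G.1 G.2 H).card) atTop atTop ∧ ∃ A : Set (ℤ × ℤ),
      Tendsto (fun H : ℕ => ((FamIn G.1 G.2 A H).card : ℝ) / (Fam G.1 G.2 H).card) atTop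
        (nhds 1) ∧
      ∀ k : ℕ, ∃ C : ℝ, ∀ H : ℕ, ∑ c ∈ FamIn G.1 G.2 A H,
        (k : ℝ) ^ Module.finrank ℤ (E c.1 c.2).toAffine.Point ≤
          C * (FamIn G.1 G.2 A H).card := by
  intro G hG
  have hv : ∀ m, Fam 2 m = Pool.Agent.W307.RT.Cv m := fun m => funext (Fam_eq m)
  have hc : ∀ m, Fam 1 m = Pool.Agent.L0h5.T8.Cc m := fun m => funext (Fam_one m)
  have h1 : ∀ m n : ℕ, (m, n) ∈ Groups →
      Tendsto (fun H : ℕ => (Fam m n H).card) atTop atTop ∧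
      Pool.Agent.L0h5.TU.MOM (Fam m n) Pool.Agent.L0h5.TU.rkS := by
    intro m n h
    simp only [Groups, mem_insert, mem_singleton, Prod.mk.injEq] at h
    rcases h with ⟨rfl, rfl⟩ | ⟨rfl, rfl⟩ | ⟨rfl, rfl⟩ | ⟨rfl, rfl⟩ | ⟨rfl, rfl⟩ | ⟨rfl, rfl⟩ |
      ⟨rfl, rfl⟩
    · rw [hc]
      exact ⟨Pool.Agent.L0h5.TE.tendsto_gen (by norm_num) Pool.Agent.L0h80.T8.low4c, h4⟩
    · rw [hc]
      exact ⟨Pool.Agent.L0h5.TE.tendsto_gen (by norm_num) Pool.Agent.L0h98.T8.low8c,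
        Pool.Agent.L0h88.TU.f8 hBOX Pool.Agent.LLead.TU.asm⟩
    · rw [hc]
      exact ⟨Pool.Agent.L0h5.TE.tendsto_gen (by norm_num) Pool.Agent.L0h98.T12.low12c,
        Pool.Agent.L0h88.TU.f12 hBOX Pool.Agent.LLead.TU.asm⟩
    · rw [hv]
      exact ⟨Pool.Agent.W307.RT.tendsto_of_low Pool.Agent.L0h94.FT.low2, h22⟩
    · rw [hv]
      exact ⟨Pool.Agent.W307.RT.tendsto_of_low Pool.Agent.W29.RT.low4, h24⟩
    · rw [hv]
      exact ⟨Pool.Agent.W307.RT.tendsto_of_low Pool.Agent.W376.RTL.low6,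
        Pool.Agent.L0h57.TU.S26.s2_f26 hBOX Pool.Agent.LLead.TU.asm⟩
    · rw [hv]
      exact ⟨Pool.Agent.W307.RT.tendsto_of_low Pool.Agent.L0h80.T8.low28,
        Pool.Agent.L0h88.TU.f28 hBOX Pool.Agent.LLead.TU.asm⟩
  obtain ⟨h2, h3⟩ := h1 G.1 G.2 hG
  exact concl h2 h3

end Pool.Agent.Results.MP_157626_nt.AllMomentsTorsion
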