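import Mathlib
import Pool.Agent.L0h45.VL.Main
import Pool.Agent.L0h45.AR.Red

/-!
# MP_157626_nt: the average of `2 ^ rank` in the families `y² + a₁ x y + a₃ y = x³ + a₂ x² + a₄ x + t`

There is an absolute constant `C` such that the average of `2 ^ rank` over the elliptic curves
`y² + a₁ x y + a₃ y = x³ + a₂ x² + a₄ x + t` over `ℚ`, `t` an integer, `|t| ≤ X`, is at most `C`, for all integers `a₁`, `a₂`,
`a₃`, `a₄` and all `X ≥ 1` with `|c₄| ^ (3/2) ≤ X` and `|c₆(0)| ≤ X`, where `c₄` and `c₆(t)` are the usual invariants (`c₄`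
does not depend on `t`). For example `y² = x³ + A x + t`, `|t| ≤ X`, for every `A` and large `X`.

Proof. The classes of `E(ℚ)` modulo doubles (up to five) are represented by inequivalent integral binary quartic forms
`(a, b, c, d, e)` without rational roots, with given invariant `I = 12 a e - 3 b d + c²` and with `|J| ≤ C X`
(`Pool/Agent/L0h45/AR`). Every class of forms has a representative in one of the boxes `|a| ≤ T / 16 ^ j`,
`|b| ≤ T / 4 ^ j`, `|c| ≤ T`, `|d| ≤ 4 ^ j T`, `|e| ≤ 16 ^ j T`, where `T ^ 3` is a constant times `X`, together with `4 ^ j`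
translates. The number of the forms with `a ≠ 0` and given `I` in a box is at most `C T ^ 3`, uniformly in `I` and `j`
(`Pool/Agent/L0h45/VL`).
-/

set_option autoImplicit false

namespace Pool.Agent.Results.MP_157626_nt.ConstantTermFamilies

/-- The curve `y² + a₁ x y + a₃ y = x³ + a₂ x² + a₄ x + t`. -/
def model (a₁ a₂ a₃ a₄ t : ℤ) : WeierstrassCurve ℤ := ⟨a₁, a₂, a₃, a₄, t⟩

/-- The same curve over `ℚ`. -/
def curve (a₁ a₂ a₃ a₄ t : ℤ) : WeierstrassCurve ℚ := ⟨a₁, a₂, a₃, a₄, t⟩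

/-- The rank of the group of its rational points. -/
noncomputable def rank (a₁ a₂ a₃ a₄ t : ℤ) : ℕ := Module.finrank ℤ (curve a₁ a₂ a₃ a₄ t).toAffine.Point

/-- The integers `t` with `|t| ≤ X` for which the curve is an elliptic curve (its discriminant is not zero). -/
def values (a₁ a₂ a₃ a₄ : ℤ) (X : ℝ) : Set ℤ := {t | |(t : ℝ)| ≤ X ∧ (model a₁ a₂ a₃ a₄ t).Δ ≠ 0}

theorem c6_eq (a₁ a₂ a₃ a₄ t : ℤ) :
    (model a₁ a₂ a₃ a₄ t).c₆ = (model a₁ a₂ a₃ a₄ 0).c₆ - 864 * t := by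
  simp only [model, WeierstrassCurve.c₆, WeierstrassCurve.b₂, WeierstrassCurve.b₄, WeierstrassCurve.b₆]
  ring

theorem c4_eq (a₁ a₂ a₃ a₄ t : ℤ) : (model a₁ a₂ a₃ a₄ t).c₄ = (model a₁ a₂ a₃ a₄ 0).c₄ := rfl

theorem curve_c4 (a₁ a₂ a₃ a₄ t : ℤ) : (curve a₁ a₂ a₃ a₄ t).c₄ = ((model a₁ a₂ a₃ a₄ 0).c₄ : ℚ) := by
  simp only [model, curve, WeierstrassCurve.c₄, WeierstrassCurve.b₂, WeierstrassCurve.b₄]
  push_cast
  ring

theorem curve_c6 (a₁ a₂ a₃ a₄ t : ℤ) : (curve a₁ a₂ a₃ a₄ t).c₆ = ((model a₁ a₂ a₃ a₄ t).c₆ : ℚ) := by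
  simp only [model, curve, WeierstrassCurve.c₆, WeierstrassCurve.b₂, WeierstrassCurve.b₄, WeierstrassCurve.b₆]
  push_cast
  ring

theorem curve_disc (a₁ a₂ a₃ a₄ t : ℤ) : (curve a₁ a₂ a₃ a₄ t).Δ = ((model a₁ a₂ a₃ a₄ t).Δ : ℚ) := by
  simp only [model, curve, WeierstrassCurve.Δ, WeierstrassCurve.b₂, WeierstrassCurve.b₄, WeierstrassCurve.b₆,
    WeierstrassCurve.b₈]
  push_cast
  ring

theorem disc_rel (a₁ a₂ a₃ a₄ t : ℤ) : 1728 * (model a₁ a₂ a₃ a₄ t).Δ =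
    (model a₁ a₂ a₃ a₄ 0).c₄ ^ 3 - (model a₁ a₂ a₃ a₄ t).c₆ ^ 2 := by
  have h := (model a₁ a₂ a₃ a₄ t).c_relation
  rw [c4_eq] at h
  exact h

theorem finite_values (a₁ a₂ a₃ a₄ : ℤ) (X : ℝ) : (values a₁ a₂ a₃ a₄ X).Finite := by
  refine (Pool.Agent.L0h45.AR.iv X).finite_toSet.subset fun t ht => ?_
  rw [Finset.mem_coe, Pool.Agent.L0h45.AR.mem_iv]
  exact ht.1

/-- there are many values -/
theorem many_values (a₁ a₂ a₃ a₄ : ℤ) {X : ℝ} (hX : 1 ≤ X) : X / 2 ≤ ((values a₁ a₂ a₃ a₄ X).ncard : ℝ) := by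
  classical
  obtain ⟨V, hV⟩ : ∃ V : Finset ℤ, V = (finite_values a₁ a₂ a₃ a₄ X).toFinset := ⟨_, rfl⟩
  have hVc : (values a₁ a₂ a₃ a₄ X).ncard = V.card := by
    rw [hV, ← Set.ncard_eq_toFinset_card _ (finite_values a₁ a₂ a₃ a₄ X)]
  have hVm : ∀ t, t ∈ V ↔ t ∈ values a₁ a₂ a₃ a₄ X := by
    intro t
    rw [hV, Set.Finite.mem_toFinset]
  obtain ⟨N, hN⟩ : ∃ N : ℤ, N = ⌊X⌋ := ⟨_, rfl⟩
  have hN1 : 1 ≤ N := by rw [hN]; exact Int.le_floor.mpr (by exact_mod_cast hX)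
  obtain ⟨Bad, hBad⟩ : ∃ Bad : Finset ℤ, Bad = (Finset.Icc (-N) N).filter
    (fun t => (model a₁ a₂ a₃ a₄ t).Δ = 0) := ⟨_, rfl⟩
  have hBadc : Bad.card ≤ 2 := by
    by_contra hcon
    push Not at hcon
    obtain ⟨t₁, h1, t₂, h2, t₃, h3, h12, h13, h23⟩ := Finset.two_lt_card.mp hcon
    have key : ∀ t ∈ Bad, ((model a₁ a₂ a₃ a₄ 0).c₆ - 864 * t) ^ 2 = (model a₁ a₂ a₃ a₄ 0).c₄ ^ 3 := by
      intro t ht
      rw [hBad, Finset.mem_filter] at ht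
      have h4 := disc_rel a₁ a₂ a₃ a₄ t
      rw [ht.2, c6_eq] at h4
      linarith
    have k1 := key t₁ h1
    have k2 := key t₂ h2
    have k3 := key t₃ h3
    have e12 := sq_eq_sq_iff_eq_or_eq_neg.mp (k1.trans k2.symm)
    have e13 := sq_eq_sq_iff_eq_or_eq_neg.mp (k1.trans k3.symm)
    rcases e12 with e | e
    · exact h12 (by omega)
    · rcases e13 with e' | e'
      · exact h13 (by omega)
      · exact h23 (by omega)
  have hsub : Finset.Icc (-N) N ⊆ V ∪ Bad := by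
    intro t ht
    rw [Finset.mem_union, hVm, hBad, Finset.mem_filter]
    by_cases h : (model a₁ a₂ a₃ a₄ t).Δ = 0
    · exact Or.inr ⟨ht, h⟩
    · left
      refine ⟨?_, h⟩
      rw [← Pool.Agent.L0h45.AR.mem_iv]
      unfold Pool.Agent.L0h45.AR.iv
      rw [← hN]
      exact ht
  have h1 := (Finset.card_le_card hsub).trans (Finset.card_union_le _ _)
  rw [Int.card_Icc] at h1
  have h2 : 2 * N - 1 ≤ (V.card : ℤ) := by omega
  have h3 : X < N + 1 := by rw [hN]; exact Int.lt_floor_add_one X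
  have h4 : (2 * N - 1 : ℝ) ≤ (V.card : ℝ) := by exact_mod_cast h2
  have h5 : (1 : ℝ) ≤ N := by exact_mod_cast hN1
  rw [hVc]
  by_cases h6 : N = 1
  · rw [h6] at h3 h4
    push_cast at h3 h4
    linarith
  · have h7 : 2 ≤ N := by omega
    have h8 : (2 : ℝ) ≤ N := by exact_mod_cast h7
    linarith

/-- the rank is that of a short model -/
theorem rank_eq (a₁ a₂ a₃ a₄ t : ℤ) (h : (model a₁ a₂ a₃ a₄ t).Δ ≠ 0) :
    rank a₁ a₂ a₃ a₄ t = Module.finrank ℤ (Pool.Agent.L0h45.AR.crv (-27 * (model a₁ a₂ a₃ a₄ 0).c₄)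
      (-54 * (model a₁ a₂ a₃ a₄ t).c₆)).toAffine.Point := by
  have hD : (curve a₁ a₂ a₃ a₄ t).Δ ≠ 0 := by
    rw [curve_disc]
    exact_mod_cast h
  have hc4 : (Pool.Agent.L0h45.AR.crv (-27 * (model a₁ a₂ a₃ a₄ 0).c₄)
      (-54 * (model a₁ a₂ a₃ a₄ t).c₆)).c₄ = 6 ^ 4 * (curve a₁ a₂ a₃ a₄ t).c₄ := by
    rw [curve_c4]
    simp only [Pool.Agent.L0h45.AR.crv, WeierstrassCurve.c₄, WeierstrassCurve.b₂, WeierstrassCurve.b₄]
    push_cast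
    ring
  have hc6 : (Pool.Agent.L0h45.AR.crv (-27 * (model a₁ a₂ a₃ a₄ 0).c₄)
      (-54 * (model a₁ a₂ a₃ a₄ t).c₆)).c₆ = 6 ^ 6 * (curve a₁ a₂ a₃ a₄ t).c₆ := by
    rw [curve_c6]
    simp only [Pool.Agent.L0h45.AR.crv, WeierstrassCurve.c₆, WeierstrassCurve.b₂, WeierstrassCurve.b₄,
      WeierstrassCurve.b₆]
    push_cast
    ring
  have hD' : (Pool.Agent.L0h45.AR.crv (-27 * (model a₁ a₂ a₃ a₄ 0).c₄)
      (-54 * (model a₁ a₂ a₃ a₄ t).c₆)).Δ ≠ 0 := by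
    intro h0
    have h1 := (Pool.Agent.L0h45.AR.crv (-27 * (model a₁ a₂ a₃ a₄ 0).c₄)
      (-54 * (model a₁ a₂ a₃ a₄ t).c₆)).c_relation
    have h2 := (curve a₁ a₂ a₃ a₄ t).c_relation
    rw [h0, hc4, hc6] at h1
    apply hD
    have h3 : (1728 : ℚ) * 6 ^ 12 * (curve a₁ a₂ a₃ a₄ t).Δ = 0 := by
      linear_combination (6 ^ 12 : ℚ) * h2 - h1
    simpa using h3
  exact (Pool.Agent.L0h45.AR.finrank_eq (u := 6) (by norm_num) hc4 hc6 hD' hD).symm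

/-- **Theorem.** There is an absolute constant `C` such that for all integers `a₁`, `a₂`, `a₃`, `a₄` and all `X ≥ 1` with
`|c₄| ^ 3 ≤ X ^ 2` and `|c₆(0)| ≤ X` (for given `a₁`, `a₂`, `a₃`, `a₄` this holds for all large `X`): the curve
`y² + a₁ x y + a₃ y = x³ + a₂ x² + a₄ x + t` is an elliptic curve for at least `X / 2` of the integers `t` with `|t| ≤ X`, and
the average of `2 ^ rank` over these curves is at most `C`. -/
theorem result : ∃ C : ℝ, 0 < C ∧ ∀ (a₁ a₂ a₃ a₄ : ℤ) (X : ℝ), 1 ≤ X →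
    |((model a₁ a₂ a₃ a₄ 0).c₄ : ℝ)| ^ 3 ≤ X ^ 2 → |((model a₁ a₂ a₃ a₄ 0).c₆ : ℝ)| ≤ X →
    (values a₁ a₂ a₃ a₄ X).Finite ∧ X / 2 ≤ ((values a₁ a₂ a₃ a₄ X).ncard : ℝ) ∧
    ∑ᶠ t ∈ values a₁ a₂ a₃ a₄ X, (2 : ℝ) ^ rank a₁ a₂ a₃ a₄ t ≤ C * ((values a₁ a₂ a₃ a₄ X).ncard : ℝ) := by
  classical
  obtain ⟨C, hC, H⟩ := Pool.Agent.L0h45.VL.main
  refine ⟨C * 46710 * 2, by positivity, ?_⟩
  intro a₁ a₂ a₃ a₄ X hX h4 h6
  refine ⟨finite_values a₁ a₂ a₃ a₄ X, many_values a₁ a₂ a₃ a₄ hX, ?_⟩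
  have hX0 : 0 < X := by linarith
  rw [finsum_mem_eq_finite_toFinset_sum _ (finite_values a₁ a₂ a₃ a₄ X)]
  obtain ⟨V, hV⟩ : ∃ V : Finset ℤ, V = (finite_values a₁ a₂ a₃ a₄ X).toFinset := ⟨_, rfl⟩
  have hVm : ∀ t ∈ V, |(t : ℝ)| ≤ X ∧ (model a₁ a₂ a₃ a₄ t).Δ ≠ 0 := by
    intro t ht
    rw [hV, Set.Finite.mem_toFinset] at ht
    exact ht
  rw [← hV]
  have hinj : Set.InjOn (fun t : ℤ => -54 * (model a₁ a₂ a₃ a₄ t).c₆) (V : Set ℤ) := by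
    intro t _ t' _ h
    simp only at h
    rw [c6_eq a₁ a₂ a₃ a₄ t, c6_eq a₁ a₂ a₃ a₄ t'] at h
    omega
  have h1 := H (46710 * X) (by linarith) (-27 * (model a₁ a₂ a₃ a₄ 0).c₄) (by
    push_cast
    rw [abs_mul, mul_pow]
    have e1 : |(-27 : ℝ)| = 27 := by norm_num
    rw [e1]
    calc (27 : ℝ) ^ 3 * |((model a₁ a₂ a₃ a₄ 0).c₄ : ℝ)| ^ 3 ≤ 27 ^ 3 * X ^ 2 := by gcongr
      _ ≤ 46710 ^ 2 * X ^ 2 := by gcongr; norm_num
      _ = (46710 * X) ^ 2 := by ring)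
    (V.image (fun t : ℤ => -54 * (model a₁ a₂ a₃ a₄ t).c₆)) (by
      intro B hB
      rw [Finset.mem_image] at hB
      obtain ⟨t, ht, rfl⟩ := hB
      obtain ⟨k1, k2⟩ := hVm t ht
      constructor
      · intro h0
        apply k2
        have h7 := disc_rel a₁ a₂ a₃ a₄ t
        have h8 : 4 * (-27 * (model a₁ a₂ a₃ a₄ 0).c₄) ^ 3 + 27 * (-54 * (model a₁ a₂ a₃ a₄ t).c₆) ^ 2 =
            -78732 * (1728 * (model a₁ a₂ a₃ a₄ t).Δ) := by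
          rw [h7]
          ring
        rw [h8] at h0
        omega
      · rw [c6_eq]
        push_cast
        have e1 := abs_le.mp k1
        have e2 := abs_le.mp h6
        rw [abs_le]
        constructor
        · linarith [e1.1, e1.2, e2.1, e2.2]
        · linarith [e1.1, e1.2, e2.1, e2.2])
  rw [Finset.sum_image hinj] at h1
  have h2 : ∑ t ∈ V, (2 : ℝ) ^ rank a₁ a₂ a₃ a₄ t = ∑ t ∈ V, (2 : ℝ) ^ Module.finrank ℤ
      (Pool.Agent.L0h45.AR.crv (-27 * (model a₁ a₂ a₃ a₄ 0).c₄)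
        (-54 * (model a₁ a₂ a₃ a₄ t).c₆)).toAffine.Point := by
    refine Finset.sum_congr rfl fun t ht => ?_
    rw [rank_eq a₁ a₂ a₃ a₄ t (hVm t ht).2]
  rw [h2]
  have h3 := many_values a₁ a₂ a₃ a₄ hX
  calc _ ≤ C * (46710 * X) := h1
    _ = C * 46710 * 2 * (X / 2) := by ring
    _ ≤ C * 46710 * 2 * ((values a₁ a₂ a₃ a₄ X).ncard : ℝ) := by gcongr

end Pool.Agent.Results.MP_157626_nt.ConstantTermFamilies
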