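import Mathlib
import Pool.Agent.TH115.GD.Defs
import Pool.Agent.L0h45.AV.Asm4

/-!
# MP_157626_nt: on every vertical line `y² = x³ + a x + b` (`a` fixed) the average size of the 2-Selmer group is at most `3`

Let `a` be an integer prime to `3` (for `3 ∣ a` the number `4 a³ + 27 b²` is divisible by `27` for every `b`). Over the integers
`b` with `4 a³ + 27 b²` positive and squarefree, ordered by `|b|`, the average size of the 2-Selmer group of
`E_b : y² = x³ + a x + b` is at most `3`, the average of `2 ^ rank` is at most `3`, the average rank is at most `3 / 2`, the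
upper density of the curves of rank at least `r` is at most `2 / (2 ^ r - 1)`, and at least one third of the curves have
rank `0` or `1`. (For `a > 0` the number `4 a³ + 27 b²` is positive for all `b`, for `a < 0` for all but finitely many `b`.)

The 2-Selmer group is the group of classes of the continuous cocycles of the absolute Galois group of `ℚ` with values in the
points of order two of `E_b` which are trivial in `H¹(ℚ_p, E_b)` for all `p`. (For `4 a³ + 27 b² > 0` the group `E_b(ℝ)` is
connected, so `H¹(ℝ, E_b) = 0` and there is no condition at the real place.)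

Proof. The nonzero classes correspond to orbits of `SO(J)(ℤ)`, `J = 2 x z + y²`, on the integral symmetric matrices `B` of trace
zero with respect to `J` and `det (X J - B) = X³ + a X + b` up to sign. These are points on the fixed quadric `chA B = a`, four
dimensional. They are counted in the reduced domain (with the exact real volume `π² / 2`), equidistributed in the classes modulo
every `M` by Weyl's method; the densities of the classes modulo `M` and the condition of solubility at `2` give the constant.
-/

set_option autoImplicit false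

open IsDedekindDomain WeierstrassCurve
open Pool.Agent.TH115.GD
open scoped Classical

namespace Pool.Agent.Results.MP_157626_nt.SelmerAverageOnVerticalLines

/-- The curve `y² = x³ + a x + b` over `ℚ`. -/
def curve (a b : ℤ) : WeierstrassCurve ℚ := ⟨0, 0, 0, a, b⟩

/-- The rank of the group of its rational points. -/
noncomputable def rank (a b : ℤ) : ℕ := Module.finrank ℤ (curve a b).toAffine.Point

/-- The 2-Selmer cocycles: continuous 1-cocycles of the Galois group of the separable closure `Sep ℚ` with values in the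
points of order two, whose restriction to the completion `ℚ_v` is the coboundary of a point over a separable closure of
`ℚ_v`, for every prime `v`. -/
def SelmerCocycle (a b : ℤ) : Set ((Sep ℚ ≃ₐ[ℚ] Sep ℚ) → Pt (curve a b) (Sep ℚ)) :=
  {f | IsCoc (curve a b) f ∧ (∀ σ, (2 : ℕ) • f σ = 0) ∧
    ∀ v : HeightOneSpectrum ℤ, LocTriv (curve a b) (Comp ℤ ℚ v) (Sep (Comp ℤ ℚ v)) f}

/-- The difference is the coboundary of a point of order two. -/
def Cohomologous (a b : ℤ) (f g : (Sep ℚ ≃ₐ[ℚ] Sep ℚ) → Pt (curve a b) (Sep ℚ)) : Prop :=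
  ∃ T : Pt (curve a b) (Sep ℚ), (2 : ℕ) • T = 0 ∧ ∀ σ, f σ - g σ = act (curve a b) (rs ℚ σ) T - T

/-- The 2-Selmer group (as a set of classes). -/
def Selmer (a b : ℤ) : Type := Quot fun f g : SelmerCocycle a b => Cohomologous a b f.1 g.1

/-- The integers `b` with `|b| ≤ Y` for which `4 a³ + 27 b²` is positive and squarefree. -/
noncomputable def values (a : ℤ) (Y : ℕ) : Finset ℤ :=
  (Finset.Icc (-(Y : ℤ)) Y).filter fun b => 0 < 4 * a ^ 3 + 27 * b ^ 2 ∧ Squarefree (4 * a ^ 3 + 27 * b ^ 2)

/-- **Theorem.** Let `a` be an integer prime to `3`. There are at least `c Y` integers `b`, `|b| ≤ Y`, with `4 a³ + 27 b²` positive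
and squarefree (`c > 0` depends on `a`, `Y` large). For these `b` the 2-Selmer group of `y² = x³ + a x + b` is finite, the average
of its order is at most `3 + o(1)`, the average of `2 ^ rank` is at most `3 + o(1)`, the average of the rank is at most
`3 / 2 + o(1)`; for every `r` the proportion of the curves of rank at least `r` is at most `(2 + o(1)) / (2 ^ r - 1)`, and the
proportion of the curves of rank at most `1` is at least `1 / 3 - o(1)`. -/
theorem result (a : ℤ) (h3 : ¬ (3 : ℤ) ∣ a) :
    (∃ c : ℝ, 0 < c ∧ ∃ Y₀ : ℕ, ∀ Y ≥ Y₀, c * (Y : ℝ) ≤ ((values a Y).card : ℝ)) ∧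
    (∀ b : ℤ, 0 < 4 * a ^ 3 + 27 * b ^ 2 → Squarefree (4 * a ^ 3 + 27 * b ^ 2) → Finite (Selmer a b)) ∧
    ∀ ε : ℝ, 0 < ε → ∃ Y₀ : ℕ, ∀ Y ≥ Y₀,
      ∑ b ∈ values a Y, (Nat.card (Selmer a b) : ℝ) ≤ (3 + ε) * ((values a Y).card : ℝ) ∧
      ∑ b ∈ values a Y, (2 : ℝ) ^ rank a b ≤ (3 + ε) * ((values a Y).card : ℝ) ∧
      ∑ b ∈ values a Y, (rank a b : ℝ) ≤ (3 / 2 + ε) * ((values a Y).card : ℝ) ∧
      (∀ r : ℕ, ((2 : ℝ) ^ r - 1) * (((values a Y).filter fun b => r ≤ rank a b).card : ℝ) ≤
        (2 + ε) * ((values a Y).card : ℝ)) ∧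
      (1 / 3 - ε) * ((values a Y).card : ℝ) ≤ (((values a Y).filter fun b => rank a b ≤ 1).card : ℝ) := by
  have ha : a ≠ 0 := by
    rintro rfl
    exact h3 (dvd_zero 3)
  obtain ⟨hfin, hsel⟩ := Pool.Agent.L0h45.AV.main_sel_e a h3
  refine ⟨(Pool.Agent.L0h45.AV.den_e a ha h3).1, hfin, fun ε hε => ?_⟩
  obtain ⟨Y₁, h1⟩ := hsel ε hε
  obtain ⟨Y₂, h2⟩ := Pool.Agent.L0h45.AV.main_rank_e a h3 ε hε
  refine ⟨Y₁ + Y₂, fun Y hY => ?_⟩
  have k2 := h2 Y (by omega)
  have k3 := Pool.Agent.L0h45.AV.cor (fun b => rank a b) (values a Y) ε hε k2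
  exact ⟨h1 Y (by omega), k2, k3.1, k3.2.1, k3.2.2⟩

end Pool.Agent.Results.MP_157626_nt.SelmerAverageOnVerticalLines
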